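import Pool.Agent.Y489.PH.Stm

/-!
Project PH (helper489): transfer of an action to a bi-Lipschitz chart, pointwise Lipschitz maps.
Adaptation of `Pool.Agent.Y858.HS.Tr` (helper858).
-/

set_option autoImplicit false

open MeasureTheory Set Metric Filter Topology
open scoped ENNReal NNReal

namespace Pool.Agent.Y726.PH

open Pool.Agent.Y485.HS Pool.Agent.Y489.PH

theorem t_TRP : S_TRP := by
  classical
  intro n hn X _ H _ _ _ _ U ψ L hψ hBU hact hSob
  obtain ⟨hUo, hVo, hbl⟩ := hψ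
  -- a nonnegative constant
  obtain ⟨K, hK⟩ : ∃ K : ℝ≥0, K = Real.toNNReal L := ⟨_, rfl⟩
  have hLK : L ≤ (K : ℝ) := by rw [hK]; exact Real.le_coe_toNNReal L
  have hlip : LipschitzOnWith K ψ U := by
    refine LipschitzOnWith.of_dist_le_mul fun a ha b hb => ?_
    exact ((hbl a ha b hb).1).trans (mul_le_mul_of_nonneg_right hLK dist_nonneg)
  have h0 : (0 : E n) ∈ BB n := by
    unfold BB
    exact mem_closedBall_self (by norm_num)
  obtain ⟨x0, hx0U, hx0⟩ := hBU h0
  have : Nonempty X := ⟨x0⟩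
  obtain ⟨θ, hθd⟩ : ∃ θ : E n → X, θ = Function.invFunOn ψ U := ⟨_, rfl⟩
  have hθU : ∀ y ∈ BB n, θ y ∈ U := by
    intro y hy
    obtain ⟨x, hx, hxy⟩ := hBU hy
    rw [hθd]
    exact Function.invFunOn_mem ⟨x, hx, hxy⟩
  have hψθ : ∀ y ∈ BB n, ψ (θ y) = y := by
    intro y hy
    obtain ⟨x, hx, hxy⟩ := hBU hy
    rw [hθd]
    exact Function.invFunOn_eq ⟨x, hx, hxy⟩
  have hθψ : ∀ x ∈ U, θ (ψ x) = x := by
    intro x hx
    have h1 : θ (ψ x) ∈ U := by
      rw [hθd]; exact Function.invFunOn_mem ⟨x, hx, rfl⟩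
    have h2 : ψ (θ (ψ x)) = ψ x := by
      rw [hθd]; exact Function.invFunOn_eq ⟨x, hx, rfl⟩
    have h3 := (hbl _ h1 x hx).2
    rw [h2, dist_self, mul_zero] at h3
    exact dist_le_zero.1 h3
  have hθlip : LipschitzOnWith K θ (BB n) := by
    refine LipschitzOnWith.of_dist_le_mul fun a ha b hb => ?_
    have h3 := (hbl _ (hθU a ha) _ (hθU b hb)).2
    rw [hψθ a ha, hψθ b hb] at h3
    exact h3.trans (mul_le_mul_of_nonneg_right hLK dist_nonneg)
  have hθc : ContinuousOn θ (BB n) := hθlip.continuousOn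
  have hact' : ∀ h : H, ∀ y ∈ BB n, h • θ y ∈ U ∧ dist (ψ (h • θ y)) y ≤ 1 / 4 := by
    intro h y hy
    have := hact h (θ y) (hθU y hy) (by rw [hψθ y hy]; exact hy)
    rwa [hψθ y hy] at this
  refine ⟨fun h y => ψ (h • θ y), ⟨?_, ?_, ?_, ?_⟩, ?_, ?_⟩
  · -- continuity
    have h1 : ContinuousOn (fun q : H × E n => q.1 • θ q.2) (univ ×ˢ BB n) := by
      refine ContinuousOn.smul continuousOn_fst ?_
      exact hθc.comp continuousOn_snd fun q hq => hq.2
    exact hlip.continuousOn.comp h1 fun q hq => (hact' q.1 q.2 hq.2).1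
  · intro x hx
    simp only [one_smul]
    exact hψθ x hx
  · intro h k x hx hk
    rw [hθψ _ (hact' k x hx).1, mul_smul]
  · intro h x hx
    exact (hact' h x hx).2
  · intro h
    have hsub : ball (0 : E n) 4 ⊆ BB n := ball_subset_closedBall
    have hinj : InjOn θ (BB n) := by
      intro a ha b hb hab
      rw [← hψθ a ha, ← hψθ b hb, hab]
    refine MapsTo.countable_of_injOn (f := θ) (t := {x : X | x ∈ Reg n X ∧
      ¬ ∃ N δ : ℝ, 0 < δ ∧ ∀ y, dist y x < δ → dist (h • y) (h • x) ≤ N * dist y x}) ?_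
      (hinj.mono fun v hv => hsub hv.1) (hSob h)
    rintro v ⟨hv, hnot⟩
    have hvB : v ∈ BB n := hsub hv
    refine ⟨⟨U, ψ, L, hθU v hvB, hUo, hVo, hbl⟩, ?_⟩
    rintro ⟨N, δ, hδ, hN⟩
    apply hnot
    have hK0 : (0 : ℝ) ≤ K := K.2
    refine ⟨K * (|N| * K), δ / (K + 1), by positivity, fun z hz hzv => ?_⟩
    have h1 : dist (θ z) (θ v) ≤ K * dist z v := hθlip.dist_le_mul z hz v hvB
    have h2 : dist (θ z) (θ v) < δ := by
      rw [lt_div_iff₀ (by positivity)] at hzv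
      have h3 : (K : ℝ) * dist z v ≤ dist z v * (K + 1) := by
        have := dist_nonneg (x := z) (y := v)
        nlinarith
      linarith
    have h4 := hN (θ z) h2
    have h5 : dist (h • θ z) (h • θ v) ≤ |N| * (K * dist z v) := by
      calc dist (h • θ z) (h • θ v) ≤ N * dist (θ z) (θ v) := h4
        _ ≤ |N| * dist (θ z) (θ v) := mul_le_mul_of_nonneg_right (le_abs_self N) dist_nonneg
        _ ≤ |N| * (K * dist z v) := mul_le_mul_of_nonneg_left h1 (abs_nonneg N)
    have h6 : dist (ψ (h • θ z)) (ψ (h • θ v)) ≤ K * dist (h • θ z) (h • θ v) :=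
      hlip.dist_le_mul _ (hact' h z hz).1 _ (hact' h v hvB).1
    calc dist (ψ (h • θ z)) (ψ (h • θ v)) ≤ K * dist (h • θ z) (h • θ v) := h6
      _ ≤ K * (|N| * (K * dist z v)) := mul_le_mul_of_nonneg_left h5 hK0
      _ = K * (|N| * K) * dist z v := by ring
  · intro h x hx _
    simp only
    rw [hθψ x hx]

end Pool.Agent.Y726.PH
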